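import Pool.Agent.H94.DG.H5.DG.CovAlg
import Pool.Agent.H94.DG.M43

/-!
# Project DG4, module IntBase: finite maps given by forms without common zeros

`form_integral`: the quotient by `I` is a finite module over the image of `aeval F` (`finite_quot`,
private in `Pool.Agent.H5.DG.CovAlg`: copy it; or `exists_relation` for the `X i`, sums and products of
integral elements), so `τ ^ n + ∑ aeval F (b (n - i)) * τ ^ i ∈ I` with polynomials `b j`; take the
homogeneous component of degree `e * a * n` (`I` is homogeneous, `homComp_aeval` in CovAlg).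
`finite_fibre`: points of the fibre of `y` are `[v]` with `F (v) = y.rep` (scale), the coordinates of `v` are
roots of the monic equations of `exists_relation` (module CovAlg).
`baseFree_of_points`: Nullstellensatz (`MvPolynomial.vanishingIdeal_zeroLocus_eq_radical`; model:
`Pool.Agent.H5.DG.baseFree_of_few`, module `Pool.Agent.H5.DG2.BaseY`).
`isMorphism_of_baseFree`: `s = 1`.
-/

open MvPolynomial
open Pool.Agent.H17 (PN VanishesAt)
open Pool.Agent.H5.DG (Homog variety BaseFree)
open Pool.Agent.H5.DG3 (IsMorphism morph)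

noncomputable section

namespace Pool.Agent.H5.DG4

private theorem IntBase_homComp_mul {σ : Type} {F : MvPolynomial σ ℂ} {e : ℕ} (hF : F.IsHomogeneous e)
    (G : MvPolynomial σ ℂ) (j : ℕ) :
    homogeneousComponent (j + e) (G * F) = homogeneousComponent j G * F := by
  have h1 : homogeneousComponent (j + e) (G * F) =
      ∑ i ∈ Finset.range (G.totalDegree + 1),
        homogeneousComponent (j + e) (homogeneousComponent i G * F) := by
    rw [← map_sum, ← Finset.sum_mul, sum_homogeneousComponent]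
  have h2 : ∀ i ∈ Finset.range (G.totalDegree + 1),
      homogeneousComponent (j + e) (homogeneousComponent i G * F) =
        if i = j then homogeneousComponent j G * F else 0 := by
    intro i _
    have h3 : (homogeneousComponent i G * F) ∈ homogeneousSubmodule σ ℂ (i + e) :=
      (homogeneousComponent_isHomogeneous i G).mul hF
    rw [homogeneousComponent_of_mem h3]
    by_cases h : i = j
    · rw [if_pos (by omega), if_pos h, h]
    · rw [if_neg (by omega), if_neg h]
  rw [h1, Finset.sum_congr rfl h2, Finset.sum_ite_eq']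
  split_ifs with h
  · rfl
  · rw [homogeneousComponent_eq_zero _ _ (by
      rw [Finset.mem_range] at h
      omega), zero_mul]

private theorem IntBase_homComp_aeval {m Nn e : ℕ} {F : Fin m → MvPolynomial (Fin (Nn + 1)) ℂ}
    (he : 1 ≤ e) (hF : ∀ a, (F a).IsHomogeneous e) (b : MvPolynomial (Fin m) ℂ) (j : ℕ) :
    homogeneousComponent (e * j) (aeval F b) = aeval F (homogeneousComponent j b) := by
  have h1 : homogeneousComponent (e * j) (aeval F b) =
      ∑ i ∈ Finset.range (b.totalDegree + 1),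
        homogeneousComponent (e * j) (aeval F (homogeneousComponent i b)) := by
    rw [← map_sum, ← map_sum, sum_homogeneousComponent]
  have h2 : ∀ i ∈ Finset.range (b.totalDegree + 1),
      homogeneousComponent (e * j) (aeval F (homogeneousComponent i b)) =
        if i = j then aeval F (homogeneousComponent j b) else 0 := by
    intro i _
    have h3 : (aeval F (homogeneousComponent i b)) ∈ homogeneousSubmodule (Fin (Nn + 1)) ℂ
        (e * i) := (homogeneousComponent_isHomogeneous i b).aeval F hF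
    rw [homogeneousComponent_of_mem h3]
    by_cases h : i = j
    · rw [if_pos (by rw [h]), if_pos h, h]
    · rw [if_neg (fun h4 => h (Nat.eq_of_mul_eq_mul_left (by omega) h4).symm), if_neg h]
  rw [h1, Finset.sum_congr rfl h2, Finset.sum_ite_eq']
  split_ifs with h
  · rfl
  · rw [homogeneousComponent_eq_zero _ _ (by
      rw [Finset.mem_range] at h
      omega), map_zero]

private theorem IntBase_integral {m N e : ℕ} {I : Ideal (MvPolynomial (Fin (N + 1)) ℂ)} (hI : Homog I)
    {F : Fin m → MvPolynomial (Fin (N + 1)) ℂ} (hF : BaseFree I e F)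
    (A' : Subalgebra ℂ (MvPolynomial (Fin (N + 1)) ℂ))
    (hA' : A' = (aeval F : MvPolynomial (Fin m) ℂ →ₐ[ℂ] MvPolynomial (Fin (N + 1)) ℂ).range)
    (τ : MvPolynomial (Fin (N + 1)) ℂ) : IsIntegral A' (Ideal.Quotient.mk I τ) := by
  classical
  have hmem : ∀ c : MvPolynomial (Fin m) ℂ, aeval F c ∈ A' := by
    intro c
    rw [hA']
    exact ⟨c, rfl⟩
  have hX : ∀ i, IsIntegral A' (Ideal.Quotient.mk I (X i)) := by
    intro i
    obtain ⟨s, c, hs, -, h⟩ := Pool.Agent.H5.DG.exists_relation hI hF i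
    have h1 : IsIntegral A' (Ideal.Quotient.mk I (X i ^ e)) := by
      refine ⟨Polynomial.X ^ s + ∑ t : Fin s, Polynomial.C (⟨aeval F (c t), hmem _⟩ : A') *
        Polynomial.X ^ (t : ℕ), ?_, ?_⟩
      · refine Polynomial.monic_X_pow_add ?_
        refine lt_of_le_of_lt (Polynomial.degree_sum_le _ _) ?_
        rw [Finset.sup_lt_iff (by exact_mod_cast WithBot.bot_lt_coe s)]
        intro t _
        refine lt_of_le_of_lt (Polynomial.degree_C_mul_X_pow_le _ _) ?_
        exact_mod_cast t.2
      · rw [Polynomial.eval₂_add, Polynomial.eval₂_pow, Polynomial.eval₂_X,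
          Polynomial.eval₂_finsetSum]
        have h2 : Ideal.Quotient.mk I ((X i ^ e) ^ s + ∑ t, aeval F (c t) * (X i ^ e) ^ (t : ℕ)) = 0 :=
          Ideal.Quotient.eq_zero_iff_mem.2 h
        rw [map_add, map_pow, map_sum] at h2
        refine Eq.trans ?_ h2
        congr 1
        refine Finset.sum_congr rfl fun t _ => ?_
        rw [Polynomial.eval₂_mul, Polynomial.eval₂_C, Polynomial.eval₂_pow, Polynomial.eval₂_X,
          map_mul, map_pow _ _ (t : ℕ)]
        rfl
    rw [map_pow] at h1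
    exact IsIntegral.of_pow hF.pos h1
  induction τ using MvPolynomial.induction_on with
  | C a =>
    have h1 : Ideal.Quotient.mk I (C a) = algebraMap A' (MvPolynomial (Fin (N + 1)) ℂ ⧸ I)
        (⟨C a, by
          have := hmem (C a)
          rwa [aeval_C] at this⟩ : A') := rfl
    rw [h1]
    exact isIntegral_algebraMap
  | add p q hp hq =>
    rw [map_add]
    exact hp.add hq
  | mul_X p i hp =>
    rw [map_mul]
    exact hp.mul (hX i)

theorem form_integral {r N e a : ℕ} {I : Ideal (MvPolynomial (Fin (N + 1)) ℂ)} (hI : Homog I)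
    {F : Fin (r + 1) → MvPolynomial (Fin (N + 1)) ℂ} (hF : BaseFree I e F)
    {τ : MvPolynomial (Fin (N + 1)) ℂ} (hτ : τ.IsHomogeneous (e * a)) :
    ∃ (n : ℕ) (c : ℕ → MvPolynomial (Fin (r + 1)) ℂ), (∀ i, (c i).IsHomogeneous (a * i)) ∧
      τ ^ n + ∑ i ∈ Finset.range n, aeval F (c (n - i)) * τ ^ i ∈ I := by
  classical
  obtain ⟨A', hA'⟩ : ∃ A' : Subalgebra ℂ (MvPolynomial (Fin (N + 1)) ℂ),
    A' = (aeval F : MvPolynomial (Fin (r + 1)) ℂ →ₐ[ℂ] MvPolynomial (Fin (N + 1)) ℂ).range :=
    ⟨_, rfl⟩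
  obtain ⟨p, hpm, hp⟩ := IntBase_integral hI hF A' hA' τ
  have hpre : ∀ t : ℕ, ∃ b : MvPolynomial (Fin (r + 1)) ℂ, aeval F b = (p.coeff t : _) := by
    intro t
    have h1 : ((p.coeff t : A') : MvPolynomial (Fin (N + 1)) ℂ) ∈ A' := (p.coeff t).2
    have h2 : A' ≤ (aeval F : MvPolynomial (Fin (r + 1)) ℂ →ₐ[ℂ]
      MvPolynomial (Fin (N + 1)) ℂ).range := hA'.le
    exact h2 h1
  choose b hb using hpre
  obtain ⟨n, hn⟩ : ∃ n, n = p.natDegree := ⟨_, rfl⟩
  have hmem : τ ^ n + ∑ t ∈ Finset.range n, aeval F (b t) * τ ^ t ∈ I := by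
    rw [← Ideal.Quotient.eq_zero_iff_mem, map_add, map_sum,
      add_comm (Ideal.Quotient.mk I (τ ^ n))]
    rw [Polynomial.eval₂_eq_sum_range, ← hn, Finset.sum_range_succ] at hp
    have h1 : p.coeff n = 1 := by
      rw [hn]
      exact hpm.leadingCoeff
    rw [h1, map_one, one_mul] at hp
    refine Eq.trans ?_ hp
    rw [map_pow]
    congr 1
    refine Finset.sum_congr rfl fun t _ => ?_
    rw [hb, map_mul, map_pow]
    rfl
  refine ⟨n, fun j => homogeneousComponent (a * j) (b (n - j)),
    fun j => homogeneousComponent_isHomogeneous _ _, ?_⟩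
  have h2 := hI _ hmem (e * (a * n))
  rw [map_add, map_sum] at h2
  have h3 : homogeneousComponent (e * (a * n)) (τ ^ n) = τ ^ n := by
    refine homogeneousComponent_eq_self ?_
    rw [← mul_assoc]
    exact hτ.pow n
  have h4 : ∀ t ∈ Finset.range n, homogeneousComponent (e * (a * n)) (aeval F (b t) * τ ^ t) =
      aeval F (homogeneousComponent (a * (n - t)) (b (n - (n - t)))) * τ ^ t := by
    intro t ht
    have htn : t < n := Finset.mem_range.1 ht
    have h5 : (τ ^ t).IsHomogeneous (e * a * t) := hτ.pow t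
    have h6 : e * (a * n) = e * (a * (n - t)) + e * a * t := by
      have h7 : n = (n - t) + t := by omega
      calc e * (a * n) = e * (a * ((n - t) + t)) := by rw [← h7]
        _ = _ := by ring
    rw [h6, IntBase_homComp_mul h5, IntBase_homComp_aeval hF.pos hF.hom, show n - (n - t) = t by omega]
  rw [h3, Finset.sum_congr rfl h4] at h2
  exact h2

private theorem IntBase_rep {N : ℕ} {I : Ideal (MvPolynomial (Fin (N + 1)) ℂ)} (hI : Homog I)
    {x : PN N} (hx : x ∈ variety I) : ∀ Q ∈ I, eval x.rep Q = 0 := by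
  have h1 : Projectivization.mk ℂ x.rep x.rep_nonzero = x := x.mk_rep
  intro Q hQ
  refine Pool.Agent.H5.DG.eval_of_mem hI x.rep_nonzero ?_ hQ
  rw [h1]
  exact hx

theorem isMorphism_of_baseFree {r N e : ℕ} {I : Ideal (MvPolynomial (Fin (N + 1)) ℂ)} (hI : Homog I)
    {F : Fin (r + 1) → MvPolynomial (Fin (N + 1)) ℂ} (hF : BaseFree I e F) :
    IsMorphism I (variety I \ ∅) fun _ : Fin 1 => F := by
  refine ⟨fun _ => ⟨e, hF.hom⟩, ?_, ?_⟩
  · intro x hx
    have h1 := Pool.Agent.H5.DG.eval_ne_zero hF x.rep_nonzero (IntBase_rep hI hx.1)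
    obtain ⟨a, ha⟩ := Function.ne_iff.1 h1
    exact ⟨0, a, ha⟩
  · intro α β a b
    rw [mul_comm, sub_self]
    exact I.zero_mem

theorem finite_fibre {r N e : ℕ} {I : Ideal (MvPolynomial (Fin (N + 1)) ℂ)} (hI : Homog I)
    {F : Fin (r + 1) → MvPolynomial (Fin (N + 1)) ℂ} (hF : BaseFree I e F) (y : PN r) :
    {x | x ∈ variety I \ ∅ ∧ x ∉ (∅ : Set (PN N)) ∧ morph (fun _ : Fin 1 => F) x = y}.Finite := by
  classical
  choose s c hs hc hrel using fun i => Pool.Agent.H5.DG.exists_relation hI hF i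
  obtain ⟨p, hp⟩ : ∃ p : Fin (N + 1) → Polynomial ℂ, ∀ i, p i = Polynomial.X ^ (e * s i) +
      ∑ t : Fin (s i), Polynomial.C (eval y.rep (c i t)) * Polynomial.X ^ (e * t) :=
    ⟨_, fun i => rfl⟩
  have hpm : ∀ i, (p i).Monic := by
    intro i
    rw [hp]
    refine Polynomial.monic_X_pow_add ?_
    refine lt_of_le_of_lt (Polynomial.degree_sum_le _ _) ?_
    rw [Finset.sup_lt_iff (by exact_mod_cast WithBot.bot_lt_coe (e * s i))]
    intro t _
    refine lt_of_le_of_lt (Polynomial.degree_C_mul_X_pow_le _ _) ?_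
    exact_mod_cast Nat.mul_lt_mul_of_pos_left t.2 hF.pos
  obtain ⟨W, hW⟩ : ∃ W : Set (Fin (N + 1) → ℂ), W = {w | ∀ i, (p i).IsRoot (w i)} := ⟨_, rfl⟩
  have hWf : W.Finite := by
    rw [hW]
    exact Set.Finite.pi' fun i => Polynomial.finite_setOfPred_isRoot (hpm i).ne_zero
  refine Set.Finite.subset (hWf.image fun w => if h : w ≠ 0 then Projectivization.mk ℂ w h
    else Projectivization.mk ℂ (fun _ => 1) fun h => one_ne_zero (congrFun h 0)) ?_
  rintro x ⟨hx, -, hxy⟩
  have hxI := IntBase_rep hI hx.1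
  have h1 := Pool.Agent.H5.DG.eval_ne_zero hF x.rep_nonzero hxI
  have h2 : morph (fun _ : Fin 1 => F) (Projectivization.mk ℂ x.rep x.rep_nonzero) =
      Projectivization.mk ℂ _ h1 :=
    Pool.Agent.H5.DG3.morph_mk (isMorphism_of_baseFree hI hF) x.rep_nonzero hxI (α := 0) h1
  rw [x.mk_rep, hxy] at h2
  have h3 : Projectivization.mk ℂ y.rep y.rep_nonzero = Projectivization.mk ℂ _ h1 := by
    rw [y.mk_rep, h2]
  rw [Projectivization.mk_eq_mk_iff'] at h3
  obtain ⟨b, hb⟩ := h3
  have hb0 : b ≠ 0 := by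
    rintro rfl
    rw [zero_smul] at hb
    exact y.rep_nonzero hb.symm
  obtain ⟨l, hl⟩ := IsAlgClosed.exists_pow_nat_eq b hF.pos
  have hl0 : l ≠ 0 := by
    rintro rfl
    rw [zero_pow (by have := hF.pos; omega)] at hl
    exact hb0 hl.symm
  have hw0 : l • x.rep ≠ 0 := smul_ne_zero hl0 x.rep_nonzero
  refine ⟨l • x.rep, ?_, ?_⟩
  · rw [hW]
    intro i
    have h4 := hxI _ (Ideal.zero_mem I)
    have h5 : ∀ a, eval (l • x.rep) (F a) = y.rep a := by
      intro a
      have h6 : eval (l • x.rep) (F a) = l ^ e * eval x.rep (F a) :=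
        Pool.Agent.H17.eval_smul_of_isHomogeneous (hF.hom a) l x.rep
      rw [h6, hl, ← hb]
      rfl
    have h7 : ∀ Q ∈ I, eval (l • x.rep) Q = 0 := by
      intro Q hQ
      refine Pool.Agent.H5.DG.eval_of_mem hI hw0 ?_ hQ
      have h8 : Projectivization.mk ℂ (l • x.rep) hw0 = x := by
        conv_rhs => rw [← x.mk_rep]
        rw [Projectivization.mk_eq_mk_iff']
        exact ⟨l, rfl⟩
      rw [h8]
      exact hx.1
    have h8 := h7 _ (hrel i)
    rw [Polynomial.IsRoot.def, hp, Polynomial.eval_add, Polynomial.eval_pow, Polynomial.eval_X,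
      Polynomial.eval_finsetSum]
    rw [map_add, map_sum, map_pow, map_pow, eval_X, ← pow_mul] at h8
    refine Eq.trans ?_ h8
    congr 1
    refine Finset.sum_congr rfl fun t _ => ?_
    rw [Polynomial.eval_mul, Polynomial.eval_C, Polynomial.eval_pow, Polynomial.eval_X, map_mul,
      map_pow, map_pow, eval_X, ← pow_mul, Pool.Agent.H5.DG.eval_aeval]
    congr 2
    have h9 : y.rep = fun a => eval (l • x.rep) (F a) := by
      funext a
      exact (h5 a).symm
    rw [h9]
  · simp only
    rw [dif_pos hw0]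
    conv_rhs => rw [← x.mk_rep]
    rw [Projectivization.mk_eq_mk_iff']
    exact ⟨l, rfl⟩

theorem baseFree_of_points {r N e : ℕ} (he : 1 ≤ e) {I : Ideal (MvPolynomial (Fin (N + 1)) ℂ)}
    {F : Fin (r + 1) → MvPolynomial (Fin (N + 1)) ℂ} (hF : ∀ b, (F b).IsHomogeneous e)
    (h : ∀ v : Fin (N + 1) → ℂ, v ≠ 0 → (∀ Q ∈ I, eval v Q = 0) → ∃ b, eval v (F b) ≠ 0) :
    BaseFree I e F := by
  refine ⟨he, hF, fun i => ?_⟩
  have h1 : (X i : MvPolynomial (Fin (N + 1)) ℂ) ∈ (Ideal.span (Set.range F) ⊔ I).radical := by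
    rw [← MvPolynomial.vanishingIdeal_zeroLocus_eq_radical (K := ℂ),
      MvPolynomial.mem_vanishingIdeal_iff]
    intro y hy
    rw [MvPolynomial.aeval_eq_eval]
    have hy' : ∀ g ∈ Ideal.span (Set.range F) ⊔ I, eval y g = 0 := by
      intro g hg
      have h2 := hy g hg
      rwa [MvPolynomial.aeval_eq_eval] at h2
    by_cases h0 : y = 0
    · rw [h0]
      simp
    · obtain ⟨b, hb⟩ := h y h0 fun Q hQ => hy' Q (Ideal.mem_sup_right hQ)
      exact absurd (hy' _ (Ideal.mem_sup_left (Ideal.subset_span ⟨b, rfl⟩))) hb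
  obtain ⟨k', hk'⟩ := h1
  exact ⟨k', hk'⟩

end Pool.Agent.H5.DG4
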