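import Pool.Agent.H94.DG.M41
import Pool.Agent.H94.DG.M49
import Pool.Agent.H94.DG.M54

/-!
# Project DG4, module SecCurve: sections along holomorphic curves

`VanishesTimes.ne`: all elements of the radicals vanish at `x` if `L j` vanishes at `x`.
`not_vanishesAt_of_section`: `compat` shows that `τ α` does not vanish at `x` for the `α` of `hv`.
`section_along`: `t z = τ α (g z).rep / (F α i₀ (g z).rep) ^ a` near all points, where `α` is such that
`F α i₀` and `τ α` do not vanish identically along `g` (`compat`: independent of `α`); so, with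
`f = morph F ∘ g`, `t` is the value of the section in the frame `(f z).rep i₀`.  Bound: `integral`,
`norm_root_le` (`t` is a root of the monic equation with the coefficients `c i (nc f i₀)`).  Orders at `s`:
take the `α` of `hv` for `x = g s` (if `τ α` is not identically zero along `g`; otherwise `compat`, since
`F α` does not vanish at `g s`), a local lift `χ` of `g`; `ψ = F α (χ)` is a local lift of `f`; the function
`τ α (χ) * T (χ)` has order at least `k` times the number of the `j ∈ J` with `L j (χ s) = 0` (every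
element of the radical of `(L j) + I` vanishes at `χ s`, so its value has order `≥ 1`), and
`ordZ t s = ordZ (τ α (χ)) s - a * ordZ ψ_(i₀) s`, `minOrd_nc`.
-/

open MvPolynomial Filter Topology
open Pool.Agent.H17 (PN VanishesAt HolomorphicInto puncturedDisc)
open Pool.Agent.H62.FC (MeroPunct)
open Pool.Agent.H92.GGL (ordZ)
open Pool.Agent.H5.DG
open Pool.Agent.H5.DG3 (IsMorphism morph)

noncomputable section

namespace Pool.Agent.H5.DG4

variable {N M m s : ℕ} {I : Ideal (MvPolynomial (Fin (N + 1)) ℂ)} {U : Set (PN N)}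
  {F : Fin s → Fin (M + 1) → MvPolynomial (Fin (N + 1)) ℂ} {a k : ℕ}
  {τ : Fin s → MvPolynomial (Fin (N + 1)) ℂ} {J : Finset (Fin m)}
  {G : Fin m → MvPolynomial (Fin (M + 1)) ℂ}

/-! ### Auxiliary lemmas -/

private lemma SC_analytic {φ : ℂ → Fin (N + 1) → ℂ} {t : ℂ} (hφ : AnalyticAt ℂ φ t)
    (P : MvPolynomial (Fin (N + 1)) ℂ) : AnalyticAt ℂ (fun z => eval (φ z) P) t := by
  induction P using MvPolynomial.induction_on with
  | C a =>
    simp only [eval_C]
    exact analyticAt_const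
  | add p q hp hq =>
    simp only [map_add]
    exact hp.add hq
  | mul_X p i hp =>
    simp only [map_mul, eval_X]
    exact hp.mul (analyticAt_pi_iff.mp hφ i)

/-- the ideal of the polynomials whose value along `φ` has order at least `n` -/
private def SC_J {φ : ℂ → Fin (N + 1) → ℂ} {t : ℂ} (hφ : AnalyticAt ℂ φ t) (n : ℕ∞) :
    Ideal (MvPolynomial (Fin (N + 1)) ℂ) where
  carrier := {P | n ≤ analyticOrderAt (fun z => eval (φ z) P) t}
  add_mem' {P Q} hP hQ := by
    change n ≤ _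
    simp only [map_add]
    exact (le_min hP hQ).trans le_analyticOrderAt_add
  zero_mem' := by
    change n ≤ _
    have h : analyticOrderAt (fun z => eval (φ z) (0 : MvPolynomial (Fin (N + 1)) ℂ)) t = ⊤ := by
      rw [analyticOrderAt_eq_top]
      exact Filter.Eventually.of_forall fun z => map_zero _
    rw [h]
    exact le_top
  smul_mem' c P hP := by
    change n ≤ analyticOrderAt (fun z => eval (φ z) (c * P)) t
    simp only [map_mul]
    have h := analyticOrderAt_mul (SC_analytic hφ c) (SC_analytic hφ P)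
    change n ≤ analyticOrderAt ((fun z => eval (φ z) c) * fun z => eval (φ z) P) t
    rw [h]
    exact le_trans hP le_add_self

private lemma SC_mem {φ : ℂ → Fin (N + 1) → ℂ} {t : ℂ} (hφ : AnalyticAt ℂ φ t) (n : ℕ∞)
    (P : MvPolynomial (Fin (N + 1)) ℂ) :
    P ∈ SC_J hφ n ↔ n ≤ analyticOrderAt (fun z => eval (φ z) P) t := Iff.rfl

private lemma SC_mul {φ : ℂ → Fin (N + 1) → ℂ} {t : ℂ} (hφ : AnalyticAt ℂ φ t)
    (P Q : MvPolynomial (Fin (N + 1)) ℂ) :
    analyticOrderAt (fun z => eval (φ z) (P * Q)) t =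
      analyticOrderAt (fun z => eval (φ z) P) t + analyticOrderAt (fun z => eval (φ z) Q) t := by
  simp only [map_mul]
  exact analyticOrderAt_mul (SC_analytic hφ P) (SC_analytic hφ Q)

private lemma SC_one {φ : ℂ → Fin (N + 1) → ℂ} {t : ℂ} (hφ : AnalyticAt ℂ φ t)
    (P : MvPolynomial (Fin (N + 1)) ℂ) : P ∈ SC_J hφ 1 ↔ eval (φ t) P = 0 := by
  rw [SC_mem, Order.one_le_iff_ne_zero, (SC_analytic hφ P).analyticOrderAt_ne_zero]

/-- the order of a product of ideals -/
private lemma SC_mulJ {φ : ℂ → Fin (N + 1) → ℂ} {t : ℂ} (hφ : AnalyticAt ℂ φ t) {n₁ n₂ : ℕ}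
    {A B : Ideal (MvPolynomial (Fin (N + 1)) ℂ)} (hA : A ≤ SC_J hφ n₁) (hB : B ≤ SC_J hφ n₂) :
    A * B ≤ SC_J hφ ((n₁ + n₂ : ℕ) : ℕ∞) := by
  rw [Ideal.mul_le]
  intro x hx y hy
  rw [SC_mem, SC_mul hφ, Nat.cast_add]
  exact add_le_add ((SC_mem hφ _ _).1 (hA hx)) ((SC_mem hφ _ _).1 (hB hy))

private lemma SC_smul {r e : ℕ} {Q : MvPolynomial (Fin r) ℂ} (hQ : Q.IsHomogeneous e)
    (c : ℂ) (x : Fin r → ℂ) : eval (c • x) Q = c ^ e * eval x Q :=
  Pool.Agent.H17.eval_smul_of_isHomogeneous hQ c x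

/-- a form vanishes at the point of a vector if and only if its value is zero -/
private lemma SC_vanishes {v : Fin (N + 1) → ℂ} (hv : v ≠ 0) {P : MvPolynomial (Fin (N + 1)) ℂ}
    {k : ℕ} (hP : P.IsHomogeneous k) (h : ¬ VanishesAt P (Projectivization.mk ℂ v hv)) :
    eval v P ≠ 0 := by
  rw [Pool.Agent.H17.vanishesAt_mk_iff hP] at h
  exact h

private lemma SC_rep {f : ℂ → PN N} {t : ℂ} {ψ : ℂ → Fin (N + 1) → ℂ}
    (he : ∀ᶠ z in 𝓝 t, ∃ h : ψ z ≠ 0, f z = Projectivization.mk ℂ (ψ z) h) :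
    ∀ᶠ z in 𝓝 t, ∃ c : ℂ, c ≠ 0 ∧ (f z).rep = c • ψ z := by
  filter_upwards [he] with z hz
  obtain ⟨h1, h2⟩ := hz
  obtain ⟨a, ha, h3⟩ := Pool.Agent.H17.exists_smul_rep (ψ z) h1
  refine ⟨a, ha, ?_⟩
  rw [h2, h3]

/-- the elements of the ideal vanish at the points of the variety -/
private lemma SC_val (hI : Homog I) (hU : U ⊆ variety I) {x : PN N} (hx : x ∈ U) :
    ∀ R ∈ I, eval x.rep R = 0 := by
  intro R hR
  have h1 : Projectivization.mk ℂ x.rep x.rep_nonzero = x := x.mk_rep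
  refine Pool.Agent.H5.DG.eval_of_mem hI x.rep_nonzero ?_ hR
  rw [h1]
  exact hU hx

/-- the elements of the ideal vanish along the lift -/
private lemma SC_van (hI : Homog I) (hU : U ⊆ variety I) {g : ℂ → PN N}
    (hgU : ∀ z ∈ puncturedDisc, g z ∈ U) {t : ℂ} (ht : t ∈ puncturedDisc)
    {φ : ℂ → Fin (N + 1) → ℂ}
    (he : ∀ᶠ z in 𝓝 t, ∃ h : φ z ≠ 0, g z = Projectivization.mk ℂ (φ z) h) :
    ∀ᶠ z in 𝓝 t, ∀ Q ∈ I, eval (φ z) Q = 0 := by
  filter_upwards [he, isOpen_puncturedDisc.mem_nhds ht] with z hz hzU Q hQ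
  obtain ⟨h1, h2⟩ := hz
  refine Pool.Agent.H5.DG.eval_of_mem hI h1 ?_ hQ
  intro Q' hQ' k hk
  rw [← h2]
  exact hU (hgU z hzU) Q' hQ' k hk

/-- the local lift of the composition -/
private lemma SC_lift (hF : IsMorphism I U F) (hI : Homog I) (hU : U ⊆ variety I)
    {g : ℂ → PN N} (hgU : ∀ z ∈ puncturedDisc, g z ∈ U) {t : ℂ} (ht : t ∈ puncturedDisc)
    {φ : ℂ → Fin (N + 1) → ℂ} (hφ : AnalyticAt ℂ φ t)
    (he : ∀ᶠ z in 𝓝 t, ∃ h : φ z ≠ 0, g z = Projectivization.mk ℂ (φ z) h) {α : Fin s}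
    (hα : ∃ a, ¬ VanishesAt (F α a) (g t)) :
    AnalyticAt ℂ (fun z a => eval (φ z) (F α a)) t ∧
      ∀ᶠ z in 𝓝 t, ∃ h : (fun a => eval (φ z) (F α a)) ≠ 0,
        morph F (g z) = Projectivization.mk ℂ (fun a => eval (φ z) (F α a)) h := by
  refine ⟨analyticAt_pi_iff.2 fun a => SC_analytic hφ (F α a), ?_⟩
  obtain ⟨a, ha⟩ := hα
  obtain ⟨e, hom⟩ := hF.hom α
  have h0 : eval (φ t) (F α a) ≠ 0 := by
    obtain ⟨h1, h2⟩ := he.self_of_nhds
    rw [h2] at ha
    exact SC_vanishes h1 (hom a) ha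
  have h1 : ∀ᶠ z in 𝓝 t, eval (φ z) (F α a) ≠ 0 :=
    (SC_analytic hφ (F α a)).continuousAt.eventually_ne h0
  filter_upwards [he, h1, SC_van hI hU hgU ht he] with z hz hza hzv
  obtain ⟨h2, h3⟩ := hz
  have h4 : (fun a => eval (φ z) (F α a)) ≠ 0 := fun h5 => hza (congrFun h5 a)
  refine ⟨h4, ?_⟩
  rw [h3]
  exact Pool.Agent.H5.DG3.morph_mk hF h2 hzv h4

private theorem SC_ne {g : ℂ → PN N} (hg : HolomorphicInto g puncturedDisc)
    {Q : MvPolynomial (Fin (N + 1)) ℂ} {e : ℕ} (hQ : Q.IsHomogeneous e)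
    (h : ∃ z ∈ puncturedDisc, ¬ VanishesAt Q (g z)) :
    ∀ p ∈ puncturedDisc, ∀ᶠ z in 𝓝[≠] p, ¬ VanishesAt Q (g z) := by
  rcases vanish_dich hg hQ with h1 | h1
  · obtain ⟨z, hz1, hz2⟩ := h
    exact absurd (h1 z hz1).self_of_nhds hz2
  · exact h1

/-- The growth of a form. -/
private theorem SC_bound {Q : MvPolynomial (Fin (M + 1)) ℂ} {e : ℕ} (hQ : Q.IsHomogeneous e) :
    ∃ K : ℝ, 0 ≤ K ∧ ∀ (x : Fin (M + 1) → ℂ) (H : ℝ), (∀ i, ‖x i‖ ≤ H) →
      ‖eval x Q‖ ≤ K * H ^ e := by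
  classical
  refine ⟨∑ n ∈ Q.support, ‖Q.coeff n‖, Finset.sum_nonneg fun _ _ => norm_nonneg _,
    fun x H hH => ?_⟩
  have hH0 : 0 ≤ H := (norm_nonneg _).trans (hH 0)
  rw [eval_eq', Finset.sum_mul]
  refine (norm_sum_le _ _).trans (Finset.sum_le_sum fun n hn => ?_)
  rw [norm_mul, norm_prod]
  refine mul_le_mul_of_nonneg_left ?_ (norm_nonneg _)
  have h1 : ∑ i, n i = e := by
    by_contra hne
    refine (mem_support_iff.mp hn) (hQ.coeff_eq_zero ?_)
    rw [Finsupp.degree_eq_sum]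
    exact hne
  calc ∏ i, ‖x i ^ n i‖ ≤ ∏ i, H ^ n i := by
        refine Finset.prod_le_prod (fun _ _ => norm_nonneg _) fun i _ => ?_
        rw [norm_pow]
        exact pow_le_pow_left₀ (norm_nonneg _) (hH i) _
    _ = H ^ e := by rw [Finset.prod_pow_eq_pow_sum, h1]

/-! ### The theorems -/

theorem not_vanishesAt_of_section (hI : Homog I) (hU : U ⊆ variety I) (hF : IsMorphism I U F)
    (hτ : IsSection I F a τ) (hk : 1 ≤ k) (hG : ∀ j, ∃ d, (G j).IsHomogeneous d) {x : PN N}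
    (hx : x ∈ U)
    (hv : ∃ α, (∃ b, ¬ VanishesAt (F α b) x) ∧
      VanishesTimes k I J (fun j => aeval (F α) (G j)) (τ α) x)
    {β : Fin s} (hβ : ¬ VanishesAt (τ β) x) {j : Fin m} (hj : j ∈ J) :
    ¬ VanishesAt (G j) (morph F x) := by
  classical
  intro hvan
  obtain ⟨α, ⟨b, hb⟩, T, d, hT, hTx, hmem⟩ := hv
  obtain ⟨e, he⟩ := hG j
  have hval := SC_val hI hU hx
  have hτα : eval x.rep (τ α) ≠ 0 := by
    intro h0
    have h1 := hval _ (hτ.compat α β b)
    rw [map_sub, map_mul, map_mul, map_pow, map_pow, h0, zero_mul, zero_sub, neg_eq_zero] at h1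
    exact mul_ne_zero hβ (pow_ne_zero _ hb) h1
  have hL : eval x.rep (aeval (F α) (G j)) = 0 :=
    (Pool.Agent.H5.DG3.vanishesAt_morph hF hI (hU hx) he ⟨b, hb⟩).1 hvan
  have hker : Ideal.radical (Ideal.span {aeval (F α) (G j)} ⊔ I) ≤
      RingHom.ker (eval x.rep) := by
    have h1 : Ideal.span {aeval (F α) (G j)} ⊔ I ≤ RingHom.ker (eval x.rep) := by
      refine sup_le ?_ fun R hR => hval R hR
      rw [Ideal.span_singleton_le_iff_mem]
      exact hL
    exact (RingHom.ker_isPrime (eval x.rep : MvPolynomial (Fin (N + 1)) ℂ →+* ℂ)).radical_le_iff.2 h1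
  have hprod : (∏ j ∈ J, Ideal.radical (Ideal.span {aeval (F α) (G j)} ⊔ I)) ≤
      Ideal.radical (Ideal.span {aeval (F α) (G j)} ⊔ I) := by
    rw [← Finset.mul_prod_erase J
      (fun j => Ideal.radical (Ideal.span {aeval (F α) (G j)} ⊔ I)) hj]
    exact Ideal.mul_le.2 fun r hr y _ => Ideal.mul_mem_right _ _ hr
  have h1 : (∏ j ∈ J, Ideal.radical (Ideal.span {aeval (F α) (G j)} ⊔ I)) ^ k ⊔ I ≤
      RingHom.ker (eval x.rep) :=
    sup_le ((Ideal.pow_le_self (by omega)).trans (hprod.trans hker)) fun R hR => hval R hR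
  have h2 := h1 hmem
  rw [RingHom.mem_ker, map_mul] at h2
  exact mul_ne_zero hTx hτα h2

theorem section_along (hI : Homog I) (hU : U ⊆ variety I) (hF : IsMorphism I U F)
    (hτ : IsSection I F a τ) (hG : ∀ j, ∃ d, (G j).IsHomogeneous d) {g : ℂ → PN N}
    (hg : HolomorphicInto g puncturedDisc) (hgU : ∀ z ∈ puncturedDisc, g z ∈ U)
    {i₀ : Fin (M + 1)} (hi₀ : i₀ ∈ nzSet fun z => morph F (g z))
    (hne : ∃ z ∈ puncturedDisc, ∃ α, ¬ VanishesAt (τ α) (g z))
    (hv : ∀ x ∈ U, ∃ α, (∃ b, ¬ VanishesAt (F α b) x) ∧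
      VanishesTimes k I J (fun j => aeval (F α) (G j)) (τ α) x) :
    ∃ (t : ℂ → ℂ) (C : ℝ), MeroPunct 1 t ∧
      (∀ z ∈ puncturedDisc, ∀ᶠ ζ in 𝓝[≠] z,
        ‖t ζ‖ ≤ C * size (nc (fun z => morph F (g z)) i₀) ζ ^ a) ∧
      ∀ z ∈ puncturedDisc, ((k * {j | j ∈ J ∧ VanishesAt (G j) (morph F (g z))}.ncard : ℕ) : ℤ) ≤
        ordZ t z - a * minOrd (nc (fun z => morph F (g z)) i₀) z := by
  classical
  have hf : HolomorphicInto (fun z => morph F (g z)) puncturedDisc :=
    Pool.Agent.H5.DG3.morph_holomorphic hF hI hU isOpen_puncturedDisc hg hgU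
  -- the value of the morphism
  have hmk : ∀ x ∈ U, ∀ α, (∃ b, eval x.rep (F α b) ≠ 0) →
      ∃ c : ℂ, c ≠ 0 ∧ (morph F x).rep = c • fun b => eval x.rep (F α b) := by
    intro x hx α hα
    have hα' : (fun b => eval x.rep (F α b)) ≠ 0 := by
      obtain ⟨b, hb⟩ := hα
      exact fun h0 => hb (congrFun h0 b)
    have h1 := Pool.Agent.H5.DG3.morph_mk hF x.rep_nonzero (SC_val hI hU hx) hα'
    have h2 : Projectivization.mk ℂ x.rep x.rep_nonzero = x := x.mk_rep
    rw [h2] at h1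
    obtain ⟨c, hc, h3⟩ := Pool.Agent.H17.exists_smul_rep _ hα'
    exact ⟨c, hc, by rw [h1, h3]⟩
  -- the tuple
  obtain ⟨z₁, hz₁⟩ : puncturedDisc.Nonempty := by
    obtain ⟨z, hz, -⟩ := hne
    exact ⟨z, hz⟩
  obtain ⟨α, hα⟩ : ∃ α, ∀ p ∈ puncturedDisc, ∀ᶠ z in 𝓝[≠] p, ¬ VanishesAt (F α i₀) (g z) := by
    obtain ⟨z₂, h1, h2⟩ := ((nz_mem hi₀ hz₁).and (eventually_mem_puncturedDisc hz₁)).exists
    obtain ⟨α, b, hb⟩ := hF.base _ (hgU z₂ h2)
    obtain ⟨c, hc, h3⟩ := hmk _ (hgU z₂ h2) α ⟨b, hb⟩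
    obtain ⟨e, he⟩ := hF.hom α
    refine ⟨α, SC_ne hg (he i₀) ⟨z₂, h2, fun h4 => h1 ?_⟩⟩
    have h5 : eval (g z₂).rep (F α i₀) = 0 := h4
    rw [h3, Pi.smul_apply, h5, smul_zero]
  have hτα : ∀ p ∈ puncturedDisc, ∀ᶠ z in 𝓝[≠] p, ¬ VanishesAt (τ α) (g z) := by
    intro p hp
    obtain ⟨z₃, hz₃, β, hβ⟩ := hne
    obtain ⟨e, he, heτ⟩ := hτ.hom β
    filter_upwards [hα p hp, SC_ne hg heτ ⟨z₃, hz₃, hβ⟩ p hp, eventually_mem_puncturedDisc hp]
      with z h1 h2 h3 h4
    have h5 := SC_val hI hU (hgU z h3) _ (hτ.compat α β i₀)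
    have h6 : eval (g z).rep (τ α) = 0 := h4
    rw [map_sub, map_mul, map_mul, map_pow, map_pow, h6, zero_mul, zero_sub, neg_eq_zero] at h5
    exact mul_ne_zero h2 (pow_ne_zero _ h1) h5
  obtain ⟨e, he, heτ⟩ := hτ.hom α
  -- the function
  obtain ⟨t, ht⟩ : ∃ t : ℂ → ℂ, t = fun z =>
    eval (g z).rep (τ α) / eval (g z).rep (F α i₀) ^ a := ⟨_, rfl⟩
  have htloc : ∀ p ∈ puncturedDisc, ∀ φ : ℂ → Fin (N + 1) → ℂ, AnalyticAt ℂ φ p →
      (∀ᶠ z in 𝓝 p, ∃ h : φ z ≠ 0, g z = Projectivization.mk ℂ (φ z) h) →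
      ∀ᶠ z in 𝓝 p, t z = eval (φ z) (τ α) / eval (φ z) (F α i₀) ^ a := by
    intro p hp φ hφ hlift
    filter_upwards [SC_rep hlift] with z hz
    obtain ⟨c, hc, h1⟩ := hz
    rw [ht]
    show eval (g z).rep (τ α) / eval (g z).rep (F α i₀) ^ a = _
    rw [h1, SC_smul heτ, SC_smul (he i₀), mul_pow, ← pow_mul,
      mul_div_mul_left _ _ (pow_ne_zero _ hc)]
  have htne : ∀ p ∈ puncturedDisc, ∀ᶠ z in 𝓝[≠] p, t z ≠ 0 := by
    intro p hp
    filter_upwards [hα p hp, hτα p hp] with z h1 h2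
    rw [ht]
    exact div_ne_zero h2 (pow_ne_zero _ h1)
  have htm : ∀ p ∈ puncturedDisc, MeromorphicAt t p := by
    intro p hp
    obtain ⟨φ, hφ, hlift⟩ := hg p hp
    have h1 : MeromorphicAt (fun z => eval (φ z) (τ α) / eval (φ z) (F α i₀) ^ a) p :=
      (SC_analytic hφ _).meromorphicAt.fun_div ((SC_analytic hφ _).meromorphicAt.fun_pow a)
    refine h1.congr ?_
    filter_upwards [(htloc p hp φ hφ hlift).filter_mono nhdsWithin_le_nhds] with z hz
    exact hz.symm
  have htop : ∀ p ∈ puncturedDisc, meromorphicOrderAt t p ≠ ⊤ := by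
    intro p hp
    rw [meromorphicOrderAt_ne_top_iff_eventually_ne_zero (htm p hp)]
    exact htne p hp
  obtain ⟨n, c, hc, hint⟩ := hτ.integral
  choose K hK0 hK using fun i => SC_bound (hc i)
  obtain ⟨C, hC0, hC⟩ := norm_root_le n a (K := ∑ i ∈ Finset.range (n + 1), K i)
    (Finset.sum_nonneg fun i _ => hK0 i)
  refine ⟨t, C, ⟨fun z h1 h2 => htm z (mem_puncturedDisc.mpr ⟨h1, h2⟩),
    fun z h1 h2 => htop z (mem_puncturedDisc.mpr ⟨h1, h2⟩)⟩, ?_, ?_⟩
  · -- the bound
    intro p hp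
    filter_upwards [hα p hp, eventually_mem_puncturedDisc hp] with z h1 h2
    have hu : eval (g z).rep (F α i₀) ≠ 0 := h1
    obtain ⟨c', hc', hrep⟩ := hmk _ (hgU z h2) α ⟨i₀, hu⟩
    have hnc : (fun b => nc (fun z => morph F (g z)) i₀ b z) =
        (eval (g z).rep (F α i₀))⁻¹ • fun b => eval (g z).rep (F α b) := by
      funext b
      show (morph F (g z)).rep b / (morph F (g z)).rep i₀ = _
      rw [hrep, Pi.smul_apply, Pi.smul_apply, Pi.smul_apply, smul_eq_mul, smul_eq_mul,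
        smul_eq_mul, mul_div_mul_left _ _ hc', div_eq_inv_mul]
    have hle : ∀ b, ‖nc (fun z => morph F (g z)) i₀ b z‖ ≤
        size (nc (fun z => morph F (g z)) i₀) z := fun b =>
      Finset.le_sup' (fun b => ‖nc (fun z => morph F (g z)) i₀ b z‖) (Finset.mem_univ b)
    have hone : nc (fun z => morph F (g z)) i₀ i₀ z = 1 := by
      have h3 := congrFun hnc i₀
      simp only [Pi.smul_apply, smul_eq_mul] at h3
      rw [h3, inv_mul_cancel₀ hu]
    have hpos : 0 < size (nc (fun z => morph F (g z)) i₀) z := by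
      have h3 := hle i₀
      rw [hone, norm_one] at h3
      linarith
    have hroot : t z ^ n + ∑ i ∈ Finset.range n,
        (if n - i ≤ n then eval (fun b => nc (fun z => morph F (g z)) i₀ b z) (c (n - i)) else 0) *
          t z ^ i = 0 := by
      have h3 := SC_val hI hU (hgU z h2) _ (hint α)
      rw [map_add, map_pow, map_sum] at h3
      have h4 : t z = eval (g z).rep (τ α) / eval (g z).rep (F α i₀) ^ a := by rw [ht]
      obtain ⟨u, hueq⟩ : ∃ u, u = eval (g z).rep (F α i₀) := ⟨_, rfl⟩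
      obtain ⟨w, hweq⟩ : ∃ w, w = eval (g z).rep (τ α) := ⟨_, rfl⟩
      rw [← hueq, ← hweq] at h4
      rw [← hueq] at hu hnc
      rw [← hweq] at h3
      have hw : w = u ^ a * t z := by
        rw [h4, mul_div_cancel₀ _ (pow_ne_zero _ hu)]
      have h5 : ∀ i ∈ Finset.range n, eval (g z).rep (aeval (F α) (c (n - i)) * τ α ^ i) =
          u ^ (a * n) * ((if n - i ≤ n then
            eval (fun b => nc (fun z => morph F (g z)) i₀ b z) (c (n - i)) else 0) * t z ^ i) := by
        intro i hi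
        have hi' := Finset.mem_range.1 hi
        rw [if_pos (Nat.sub_le n i), map_mul, map_pow, ← hweq, hnc, SC_smul (hc (n - i)),
          Pool.Agent.H5.DG.eval_aeval, hw, mul_pow, ← pow_mul, inv_pow]
        have h6 : u ^ (a * n) = u ^ (a * (n - i)) * u ^ (a * i) := by
          rw [← pow_add, ← mul_add]
          congr 2
          omega
        rw [h6]
        have h7 : u ^ (a * (n - i)) ≠ 0 := pow_ne_zero _ hu
        field_simp
      rw [Finset.sum_congr rfl h5, ← Finset.mul_sum, hw, mul_pow, ← pow_mul, ← mul_add] at h3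
      exact (mul_eq_zero.1 h3).resolve_left (pow_ne_zero _ hu)
    refine hC (fun i => if i ≤ n then
      eval (fun b => nc (fun z => morph F (g z)) i₀ b z) (c i) else 0) (t z) _ hpos
      (fun i => ?_) hroot
    split_ifs with hi
    · refine (hK i _ _ hle).trans ?_
      refine mul_le_mul_of_nonneg_right ?_ (pow_nonneg hpos.le _)
      exact Finset.single_le_sum (fun i _ => hK0 i) (Finset.mem_range.2 (by omega))
    · rw [norm_zero]
      exact mul_nonneg (Finset.sum_nonneg fun i _ => hK0 i) (pow_nonneg hpos.le _)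
  · -- the orders
    intro p hp
    obtain ⟨φ, hφ, hlift⟩ := hg p hp
    obtain ⟨β, hβ, T, dT, hT, hTx, hmem⟩ := hv (g p) (hgU p hp)
    obtain ⟨h1, h2⟩ := SC_lift hF hI hU hgU hp hφ hlift hβ
    have hmin := minOrd_nc hf hi₀ hp h1 h2
    have hvan := SC_van hI hU hgU hp hlift
    -- the coordinate with index `i₀`
    have hFβ : ∀ᶠ z in 𝓝[≠] p, eval (φ z) (F β i₀) ≠ 0 := by
      filter_upwards [nz_mem hi₀ hp, h2.filter_mono nhdsWithin_le_nhds] with z h3 h4 h5
      obtain ⟨h6, h7⟩ := h4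
      apply h3
      obtain ⟨c', hc', h8⟩ := Pool.Agent.H17.exists_smul_rep _ h6
      rw [h7, h8, Pi.smul_apply, h5, smul_zero]
    have hFα : ∀ᶠ z in 𝓝[≠] p, eval (φ z) (F α i₀) ≠ 0 := by
      filter_upwards [hα p hp, hlift.filter_mono nhdsWithin_le_nhds] with z h3 h4
      obtain ⟨h5, h6⟩ := h4
      rw [h6] at h3
      exact SC_vanishes h5 (he i₀) h3
    have hteq : ∀ᶠ z in 𝓝[≠] p, eval (φ z) (τ β) = t z * eval (φ z) (F β i₀) ^ a := by
      filter_upwards [hFα, (htloc p hp φ hφ hlift).filter_mono nhdsWithin_le_nhds,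
        hvan.filter_mono nhdsWithin_le_nhds] with z h3 h4 h5
      have h6 := h5 _ (hτ.compat α β i₀)
      rw [map_sub, map_mul, map_mul, map_pow, map_pow, sub_eq_zero] at h6
      rw [h4, div_mul_eq_mul_div, h6, mul_div_cancel_right₀ _ (pow_ne_zero _ h3)]
    have hτβ : AnalyticAt ℂ (fun z => eval (φ z) (τ β)) p := SC_analytic hφ _
    have hFβa : AnalyticAt ℂ (fun z => eval (φ z) (F β i₀)) p := SC_analytic hφ _
    have htopβ : meromorphicOrderAt (fun z => eval (φ z) (τ β)) p ≠ ⊤ := by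
      rw [meromorphicOrderAt_ne_top_iff_eventually_ne_zero hτβ.meromorphicAt]
      filter_upwards [hteq, htne p hp, hFβ] with z h3 h4 h5
      rw [h3]
      exact mul_ne_zero h4 (pow_ne_zero _ h5)
    have htopF : meromorphicOrderAt (fun z => eval (φ z) (F β i₀)) p ≠ ⊤ := by
      rw [meromorphicOrderAt_ne_top_iff_eventually_ne_zero hFβa.meromorphicAt]
      exact hFβ
    have hord : ordZ (fun z => eval (φ z) (τ β)) p =
        ordZ t p + a * ordZ (fun z => eval (φ z) (F β i₀)) p := by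
      have h3 : (fun z => eval (φ z) (τ β)) =ᶠ[𝓝[≠] p]
          (t * (fun z => eval (φ z) (F β i₀)) ^ a) := by
        filter_upwards [hteq] with z hz
        rw [Pi.mul_apply, Pi.pow_apply, hz]
      have h4 := meromorphicOrderAt_congr h3
      rw [meromorphicOrderAt_mul (htm p hp) (hFβa.meromorphicAt.pow a),
        meromorphicOrderAt_pow hFβa.meromorphicAt] at h4
      rw [← Pool.Agent.H92.GGL.ordZ_cast htopβ, ← Pool.Agent.H92.GGL.ordZ_cast htopF,
        ← Pool.Agent.H92.GGL.ordZ_cast (htop p hp)] at h4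
      exact_mod_cast h4
    have hgoal : ordZ t p - a * minOrd (nc (fun z => morph F (g z)) i₀) p =
        ordZ (fun z => eval (φ z) (τ β)) p := by
      rw [hmin, hord]
      ring
    rw [hgoal]
    -- the ideals
    have hIJ : ∀ n : ℕ∞, I ≤ SC_J hφ n := by
      intro n Q hQ
      rw [SC_mem]
      have : analyticOrderAt (fun z => eval (φ z) Q) p = ⊤ := by
        rw [analyticOrderAt_eq_top]
        filter_upwards [hvan] with z hz
        exact hz Q hQ
      rw [this]
      exact le_top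
    have hφp : φ p ≠ 0 := (hlift.self_of_nhds).1
    have hgp : g p = Projectivization.mk ℂ (φ p) hφp := (hlift.self_of_nhds).2
    have hT0 : eval (φ p) T ≠ 0 := by
      rw [hgp] at hTx
      exact SC_vanishes hφp hT hTx
    have hiff : ∀ j, VanishesAt (G j) (morph F (g p)) → eval (φ p) (aeval (F β) (G j)) = 0 := by
      intro j hj
      obtain ⟨d, hd⟩ := hG j
      rw [Pool.Agent.H5.DG.eval_aeval]
      obtain ⟨h3, h4⟩ := h2.self_of_nhds
      rw [h4, Pool.Agent.H17.vanishesAt_mk_iff hd] at hj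
      exact hj
    have hprod : (∏ j ∈ J, Ideal.radical (Ideal.span {aeval (F β) (G j)} ⊔ I)) ≤
        SC_J hφ ((J.filter fun j => VanishesAt (G j) (morph F (g p))).card : ℕ) := by
      have h3 : ∀ S : Finset (Fin m),
          (∏ j ∈ S, Ideal.radical (Ideal.span {aeval (F β) (G j)} ⊔ I)) ≤
          SC_J hφ ((S.filter fun j => VanishesAt (G j) (morph F (g p))).card : ℕ) := by
        intro S
        induction S using Finset.induction_on with
        | empty =>
          rw [Finset.filter_empty, Finset.card_empty]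
          intro A _
          rw [SC_mem, Nat.cast_zero]
          exact zero_le
        | insert i S hi ih =>
          rw [Finset.prod_insert hi, Finset.filter_insert]
          by_cases hvi : VanishesAt (G i) (morph F (g p))
          · rw [if_pos hvi, Finset.card_insert_of_notMem
              (fun h => hi (Finset.mem_filter.1 h).1),
              Nat.add_comm (S.filter fun j => VanishesAt (G j) (morph F (g p))).card 1]
            refine SC_mulJ hφ (n₁ := 1) ?_ ih
            intro B hB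
            obtain ⟨r, hr⟩ := hB
            have h4 : Ideal.span {aeval (F β) (G i)} ⊔ I ≤ SC_J hφ 1 := by
              refine sup_le ?_ (hIJ 1)
              rw [Ideal.span_singleton_le_iff_mem, SC_one]
              exact hiff i hvi
            have h5 := h4 hr
            rw [SC_one, map_pow] at h5
            rw [Nat.cast_one, SC_one]
            exact eq_zero_of_pow_eq_zero h5
          · rw [if_neg hvi]
            exact Ideal.mul_le_right.trans ih
      exact h3 J
    have hpow : ∀ r : ℕ, (∏ j ∈ J, Ideal.radical (Ideal.span {aeval (F β) (G j)} ⊔ I)) ^ r ≤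
        SC_J hφ ((r * (J.filter fun j => VanishesAt (G j) (morph F (g p))).card : ℕ) : ℕ∞) := by
      intro r
      induction r with
      | zero =>
        intro A _
        rw [SC_mem, zero_mul, Nat.cast_zero]
        exact zero_le
      | succ r ih =>
        rw [pow_succ, add_mul, one_mul]
        exact SC_mulJ hφ ih hprod
    have h5 := (sup_le (hpow k) (hIJ _)) hmem
    rw [SC_mem, SC_mul hφ] at h5
    have h6 : analyticOrderAt (fun z => eval (φ z) T) p = 0 := by
      rw [(SC_analytic hφ _).analyticOrderAt_eq_zero]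
      exact hT0
    rw [h6, zero_add] at h5
    have hset : {j | j ∈ J ∧ VanishesAt (G j) (morph F (g p))} =
        ((J.filter fun j => VanishesAt (G j) (morph F (g p)) : Finset (Fin m)) :
          Set (Fin m)) := by
      ext j
      simp
    rw [hset, Set.ncard_coe_finset]
    obtain ⟨q, hq⟩ : ∃ q : ℕ, q =
      k * (J.filter fun j => VanishesAt (G j) (morph F (g p))).card := ⟨_, rfl⟩
    rw [← hq] at h5 ⊢
    have h7 : ((q : ℤ) : WithTop ℤ) ≤ meromorphicOrderAt (fun z => eval (φ z) (τ β)) p := by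
      rw [hτβ.meromorphicOrderAt_eq]
      rw [hτβ.meromorphicOrderAt_eq] at htopβ
      generalize analyticOrderAt (fun z => eval (φ z) (τ β)) p = o at h5 htopβ
      induction o using ENat.recTopCoe with
      | top => exact absurd rfl htopβ
      | coe o =>
        have h8 : q ≤ o := by exact_mod_cast h5
        show ((q : ℤ) : WithTop ℤ) ≤ ((o : ℤ) : WithTop ℤ)
        exact_mod_cast h8
    rw [← Pool.Agent.H92.GGL.ordZ_cast htopβ] at h7
    exact_mod_cast h7

end Pool.Agent.H5.DG4
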